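import Pool.Agent.Helper93.PL.St

/-!
# PL MODULE Cl2: the sum of the main terms over the `k`-subsets of the allowed `m`
-/

set_option autoImplicit false

namespace Pool.Agent.Helper9.PL

open Finset
open Pool.Agent.Helper61.PV
open Pool.Agent.Helper93.PL

theorem hCl2 (hRhk : StRhk) (hAlw : StAlw) (hCho : StCho) :
    Pool.Agent.Helper93.PL.StCl2 := by
  intro k ε x hε hx
  have hxk : 0 < x ^ k := by positivity
  obtain ⟨w₀, hw₀⟩ := hRhk k (ε / (2 * x ^ k)) (by positivity)
  refine ⟨w₀, fun w hw μ hμ hμx => ?_⟩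
  obtain ⟨hlow, hup⟩ := hw₀ w hw
  have hW : 1 ≤ primorial w := primorial_pos w
  have hWpos : (0 : ℝ) < primorial w := by exact_mod_cast hW
  have hφ : 0 < Nat.totient (primorial w) := Nat.totient_pos.mpr hW
  have hφpos : (0 : ℝ) < Nat.totient (primorial w) := by exact_mod_cast hφ
  have hQ : 0 < ((primorial w : ℝ) / Nat.totient (primorial w)) ^ k := by positivity
  obtain ⟨S₀, hS₀, hS⟩ := hCho k x (4 * primorial w)
    (ε / 2 / ((primorial w : ℝ) / Nat.totient (primorial w)) ^ k) hx.le (by positivity)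
    (by positivity)
  refine ⟨S₀, hS₀, fun S hSS d F => ?_⟩
  have hSpos : 0 < S := lt_of_lt_of_le hS₀ hSS
  have hSk : 0 < S ^ k := by positivity
  have hRcW : Rc (primorial w) F ≤ primorial w := by
    unfold Rc
    refine le_trans (Finset.card_filter_le _ _) ?_
    rw [Finset.card_range]
  have hRcW' : (Rc (primorial w) F : ℝ) ≤ primorial w := by exact_mod_cast hRcW
  have hRc0 : (0 : ℝ) ≤ Rc (primorial w) F := Nat.cast_nonneg _
  have hfrac0 : 0 ≤ (Rc (primorial w) F : ℝ) / primorial w := by positivity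
  have hfrac1 : (Rc (primorial w) F : ℝ) / primorial w ≤ 1 := by
    rw [div_le_one hWpos]; exact hRcW'
  have hy0 : 0 ≤ (x - μ) * ((Rc (primorial w) F : ℝ) / primorial w) :=
    mul_nonneg (by linarith) hfrac0
  have hy1 : (x - μ) * ((Rc (primorial w) F : ℝ) / primorial w) ≤ x := by
    calc (x - μ) * ((Rc (primorial w) F : ℝ) / primorial w) ≤ (x - μ) * 1 :=
          mul_le_mul_of_nonneg_left hfrac1 (by linarith)
      _ ≤ x := by linarith
  have hal := hAlw d (primorial w) F (μ * S) (x * S) hW (by positivity)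
    (mul_le_mul_of_nonneg_right hμx.le hSpos.le)
  have hal' : |(#(al (primorial w) F (μ * S) (x * S)) : ℝ) -
      (x - μ) * ((Rc (primorial w) F : ℝ) / primorial w) * S| ≤ 4 * primorial w := by
    have e : (x * S - μ * S) * (Rc (primorial w) F : ℝ) / primorial w =
        (x - μ) * ((Rc (primorial w) F : ℝ) / primorial w) * S := by ring
    rw [← e]
    exact hal
  have hcho := hS S _ _ hSS hy0 hy1 hal'
  set a : ℕ := #(al (primorial w) F (μ * S) (x * S)) with ha
  set Q : ℝ := ((primorial w : ℝ) / Nat.totient (primorial w)) ^ k with hQdef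
  set Y : ℝ := (x - μ) * ((Rc (primorial w) F : ℝ) / primorial w) with hY
  -- the main term
  have hmain : ((x - μ) * (Rc (primorial w) F / Nat.totient (primorial w))) ^ k / k.factorial =
      Q * (Y ^ k / k.factorial) := by
    have e : (x - μ) * ((Rc (primorial w) F : ℝ) / Nat.totient (primorial w)) =
        ((primorial w : ℝ) / Nat.totient (primorial w)) *
          ((x - μ) * ((Rc (primorial w) F : ℝ) / primorial w)) := by field_simp
    rw [hQdef, hY, e, mul_pow]
    ring
  -- scaled version of CHO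
  have h1 : |Q * ((a.choose k : ℝ) / S ^ k) - Q * (Y ^ k / k.factorial)| ≤ ε / 2 := by
    rw [← mul_sub, abs_mul, abs_of_pos hQ]
    calc Q * |(a.choose k : ℝ) / S ^ k - Y ^ k / k.factorial| ≤ Q * (ε / 2 / Q) :=
          mul_le_mul_of_nonneg_left hcho hQ.le
      _ = ε / 2 := by field_simp
  -- the sum of the main terms
  set M : ℕ := ⌊x * S⌋₊ with hM
  have hMx : (M : ℝ) ≤ x * S := Nat.floor_le (by positivity)
  have hsub : al (primorial w) F (μ * S) (x * S) ⊆ Icc 1 M := by
    intro m hm
    unfold al at hm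
    rw [Finset.mem_filter, Finset.mem_range] at hm
    rw [Finset.mem_Icc]
    refine ⟨?_, by omega⟩
    have h0 : (0 : ℝ) < m := lt_of_le_of_lt (by positivity) hm.2.1
    have h0' : 0 < m := by exact_mod_cast h0
    exact h0'
  have hsum : ∑ T ∈ (al (primorial w) F (μ * S) (x * S)).powersetCard k,
      (sg (primorial w) T - Q) ≤ ε / (2 * x ^ k) * (M : ℝ) ^ k := by
    refine le_trans ?_ (hup M)
    refine Finset.sum_le_sum_of_subset_of_nonneg (Finset.powersetCard_mono hsub) ?_
    intro T hT _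
    rw [Finset.mem_powersetCard] at hT
    have := hlow T hT.2
    linarith
  have hsum0 : 0 ≤ ∑ T ∈ (al (primorial w) F (μ * S) (x * S)).powersetCard k,
      (sg (primorial w) T - Q) := by
    refine Finset.sum_nonneg fun T hT => ?_
    rw [Finset.mem_powersetCard] at hT
    have := hlow T hT.2
    linarith
  have hsplit : ∑ T ∈ (al (primorial w) F (μ * S) (x * S)).powersetCard k,
      (sg (primorial w) T - Q) =
      (∑ T ∈ (al (primorial w) F (μ * S) (x * S)).powersetCard k, sg (primorial w) T) -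
        (a.choose k : ℝ) * Q := by
    rw [Finset.sum_sub_distrib, Finset.sum_const, Finset.card_powersetCard, nsmul_eq_mul]
  rw [hsplit] at hsum hsum0
  set Z : ℝ := ∑ T ∈ (al (primorial w) F (μ * S) (x * S)).powersetCard k, sg (primorial w) T
    with hZ
  have hMk : (M : ℝ) ^ k ≤ (x * S) ^ k := pow_le_pow_left₀ (Nat.cast_nonneg M) hMx k
  have h2 : Z - (a.choose k : ℝ) * Q ≤ ε / 2 * S ^ k := by
    refine le_trans hsum ?_
    calc ε / (2 * x ^ k) * (M : ℝ) ^ k ≤ ε / (2 * x ^ k) * (x * S) ^ k :=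
          mul_le_mul_of_nonneg_left hMk (by positivity)
      _ = ε / 2 * S ^ k := by rw [mul_pow]; field_simp
  have h3 : Z / S ^ k - Q * ((a.choose k : ℝ) / S ^ k) ≤ ε / 2 := by
    have e : Z / S ^ k - Q * ((a.choose k : ℝ) / S ^ k) =
        (Z - (a.choose k : ℝ) * Q) / S ^ k := by ring
    rw [e, div_le_iff₀ hSk]
    exact h2
  have h4 : 0 ≤ Z / S ^ k - Q * ((a.choose k : ℝ) / S ^ k) := by
    have e : Z / S ^ k - Q * ((a.choose k : ℝ) / S ^ k) =
        (Z - (a.choose k : ℝ) * Q) / S ^ k := by ring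
    rw [e]
    exact div_nonneg hsum0 hSk.le
  rw [hmain]
  rw [abs_le] at h1 ⊢
  constructor
  · linarith [h1.1]
  · linarith [h1.2]

end Pool.Agent.Helper9.PL
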