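import Pool.Agent.Helper93.PL.St

/-!
# PL MODULE Rhk: average of the main terms
-/

set_option autoImplicit false

namespace Pool.Agent.Helper9.PL

open Finset
open Pool.Agent.Helper93.PL

theorem one_le_rho (w h : ℕ) : 1 ≤ rho w h := by
  unfold rho
  refine Finset.prod_induction _ (fun x : ℝ => 1 ≤ x)
    (fun a b ha hb => one_le_mul_of_one_le_of_one_le ha hb) le_rfl fun p hp => ?_
  rw [Finset.mem_filter] at hp
  have h2 : 2 ≤ p := (Nat.prime_of_mem_primeFactors hp.1).two_le
  have h2' : (2 : ℝ) ≤ p := by exact_mod_cast h2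
  have : 0 ≤ 1 / ((p : ℝ) - 1) := by
    apply div_nonneg zero_le_one
    linarith
  linarith

theorem hRhk (hMer : StMer) (hRh1 : StRh1) (hRh2 : StRh2) (hRh3 : StRh3) :
    Pool.Agent.Helper93.PL.StRhk := by
  intro k ε hε
  have h2K : (0 : ℝ) < 2 ^ (k * k + 1) := by positivity
  obtain ⟨w₁, hw₁⟩ := hMer k (ε / 2 ^ (k * k + 1)) (by positivity)
  refine ⟨max w₁ (2 ^ (k * k)), fun w hw => ?_⟩
  have hw1 : w₁ ≤ w := le_trans (le_max_left _ _) hw
  have hw2 : 2 ^ (k * k) ≤ w := le_trans (le_max_right _ _) hw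
  have hwpos : 0 < w := lt_of_lt_of_le (by positivity) hw2
  have hwpos' : (0 : ℝ) < w := by exact_mod_cast hwpos
  have hQ := hw₁ w hw1
  set Q : ℝ := ((primorial w : ℝ) / Nat.totient (primorial w)) ^ k with hQdef
  have hQ0 : 0 ≤ Q := by positivity
  refine ⟨fun T hT => ?_, fun M => ?_⟩
  · have := (hRh2 w T).1
    rw [hT] at this
    exact this
  · rcases Nat.eq_zero_or_pos k with hk | hk
    · subst hk
      rw [Finset.powersetCard_zero, Finset.sum_singleton]
      have e : sg (primorial w) ∅ = 1 := by simp [sg]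
      rw [e, hQdef, pow_zero, pow_zero]
      linarith
    · have hM0 : (0 : ℝ) ≤ M := Nat.cast_nonneg M
      have step1 : ∑ T ∈ (Icc 1 M).powersetCard k, (sg (primorial w) T - Q) ≤
          ∑ T ∈ (Icc 1 M).powersetCard k,
            Q * ((∏ m ∈ T, ∏ i ∈ T.filter (fun i => i < m), rho w (m - i)) - 1) := by
        refine Finset.sum_le_sum fun T hT => ?_
        rw [Finset.mem_powersetCard] at hT
        have := (hRh2 w T).2
        rw [hT.2] at this
        rw [mul_sub, mul_one]
        linarith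
      have step2 := hRh3 k M (rho w) (one_le_rho w)
      have step3 := hRh1 (k * k) w M hw2
      have step4 : ∑ T ∈ (Icc 1 M).powersetCard k, (sg (primorial w) T - Q) ≤
          Q * ((M : ℝ) ^ (k - 1) * (2 ^ (k * k + 1) / (w : ℝ) * M)) := by
        refine le_trans step1 ?_
        rw [← Finset.mul_sum]
        refine mul_le_mul_of_nonneg_left (le_trans step2 ?_) hQ0
        exact mul_le_mul_of_nonneg_left step3 (by positivity)
      have e1 : (M : ℝ) ^ (k - 1) * M = (M : ℝ) ^ k := by
        rw [← pow_succ, Nat.sub_add_cancel hk]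
      have step5 : Q * ((M : ℝ) ^ (k - 1) * (2 ^ (k * k + 1) / (w : ℝ) * M)) =
          (Q * (2 ^ (k * k + 1) / (w : ℝ))) * (M : ℝ) ^ k := by
        rw [← e1]; ring
      have step6 : Q * (2 ^ (k * k + 1) / (w : ℝ)) ≤ ε := by
        calc Q * (2 ^ (k * k + 1) / (w : ℝ)) ≤
            (ε / 2 ^ (k * k + 1) * w) * (2 ^ (k * k + 1) / (w : ℝ)) :=
              mul_le_mul_of_nonneg_right hQ (by positivity)
          _ = ε := by field_simp
      rw [step5] at step4
      exact le_trans step4 (mul_le_mul_of_nonneg_right step6 (by positivity))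

end Pool.Agent.Helper9.PL
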